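import Pool.Agent.H.MP_042718_an.B

set_option autoImplicit false

namespace Pool.Agent.Results.MP_042718_an.No

open Pool.Agent.H.MP_042718_an Matrix

/-- The block matrix `[φ (x i j)]`. -/
def amp {ι B : Type} {m : ℕ} (φ : B → Matrix ι ι ℂ) (x : Matrix (Fin m) (Fin m) B) :
    Matrix (Fin m × ι) (Fin m × ι) ℂ := Matrix.of fun p q => φ (x p.1 q.1) p.2 q.2

/-- The operator norm of a square matrix on Euclidean space. -/
noncomputable def opn {ι : Type} [Fintype ι] [DecidableEq ι] (X : Matrix ι ι ℂ) : ℝ :=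
  ‖Matrix.toEuclideanCLM (n := ι) (𝕜 := ℂ) X‖

/-- `‖φ‖_cb ≤ c` for a map `φ` on an algebra `A` of matrices. -/
def CB {ι κ : Type} [Fintype ι] [DecidableEq ι] [Fintype κ] [DecidableEq κ]
    (A : Subalgebra ℂ (Matrix ι ι ℂ)) (φ : A → Matrix κ κ ℂ) (c : ℝ) : Prop :=
  ∀ (m : ℕ) (x : Matrix (Fin m) (Fin m) A), opn (amp φ x) ≤ c * opn (amp Subtype.val x)

theorem result : ∃ (A : Subalgebra ℂ (Matrix (Fin 2 × Fin 4) (Fin 2 × Fin 4) ℂ))
    (θ : A →ₐ[ℂ] Matrix (Fin 2) (Fin 2) ℂ) (α : A →ₛₗ[starRingEnd ℂ] A),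
    (∃ c, CB A θ c) ∧ α 1 = 1 ∧ CB A (fun a => (α a).1) 1 ∧ CB A (fun a => (α a).1ᴴ) 1 ∧
      CB A (fun a => (2⁻¹ : ℂ) • (θ a + (θ (α a))ᴴ)) 1 ∧ ¬ CB A θ 2 := by
  let e := AlgEquiv.ofInjective P P.toRingHom.injective
  have he : (Subtype.val : P.range → _) = fun b => P (e.symm b) := by
    funext b
    exact congrArg Subtype.val (e.apply_symm_apply b).symm
  let α : P.range →ₛₗ[starRingEnd ℂ] P.range :=
    { toFun := fun b => e (AL (e.symm b))
      map_add' := fun a b => by simp only [map_add]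
      map_smul' := fun c a => by rw [map_smul, map_smulₛₗ, map_smul] }
  have hα : ∀ b, (α b).1 = P (AL (e.symm b)) := fun b => AlgEquiv.ofInjective_apply P _ _
  obtain ⟨c, hc⟩ := cb
  refine ⟨P.range, TH.comp e.symm.toAlgHom, α, ⟨c, fun m x => ?_⟩, ?_, fun m x => ?_,
    fun m x => ?_, fun m x => ?_, fun h => ?_⟩
  · rw [he]
    exact hc _ m x e.symm
  · change e (γ ((e.symm 1).map _)) = 1
    rw [map_one, Matrix.map_one _ (map_zero _) (map_one _), γ_one, map_one]
  · simp only [hα]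
    rw [he, one_mul]
    exact cc1 x e.symm
  · simp only [hα]
    rw [he, one_mul]
    exact cc2 x e.symm
  · rw [he, one_mul]
    change opn (amp (fun b => (2⁻¹ : ℂ) • (TH (e.symm b) +
      (TH (e.symm (e (AL (e.symm b)))))ᴴ)) x) ≤ _
    simp only [AlgEquiv.symm_apply_apply]
    exact cc3 x e.symm
  · have h1 := h 1 !![e !![0, 0; 1, 0]]
    have a1 : amp (TH.comp e.symm.toAlgHom) !![e !![0, 0; 1, 0]] =
        am (fun b => TH b) !![!![0, 0; 1, 0]] := by
      ext p q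
      simp [am, amp]
    have a2 : amp Subtype.val !![e !![0, 0; 1, 0]] = am (fun b => P b) !![!![0, 0; 1, 0]] := by
      ext p q
      simp [am, amp, e]
    rw [a1, a2] at h1
    exact big.not_ge h1

end Pool.Agent.Results.MP_042718_an.No
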